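import Pool.Agent.K6.H25.TT.Box
import Pool.Agent.K6.H34.TQ.Stm

/-! Project TQ (helper34), part BOX2: from the sums over the twists of coprime pairs to a box, for
the second moment. Copy of `Pool.Agent.K6.H25.TT.Box` with `4 ^ rank`. -/

set_option autoImplicit false

namespace Pool.Agent.K6.H84.TQ

open Finset Pool.Agent.W262.RK Pool.Agent.W307.RT Pool.Agent.K6.H34.TT Pool.Agent.K6.H25.TT
open Pool.Agent.K6.H34.TQ (AVGR2 BOX2)

/-- the trivial bound in a box -/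
lemma trivBox2 (h2 : OMG) : ∃ C : ℝ, 0 ≤ C ∧ ∀ N : ℕ, 1 ≤ N → ∀ A B : ℤ, A ≠ 0 → B ≠ 0 → A ≠ B →
    A.natAbs ≤ N → B.natAbs ≤ N →
    (4 : ℝ) ^ Module.finrank ℤ (EAB A B).toAffine.Point ≤ C * Real.sqrt N := by
  obtain ⟨C, hC, h⟩ := h2 16 (1 / 6) (by norm_num)
  refine ⟨256 * C * 2, by positivity, ?_⟩
  intro N hN A B hA hB hAB h3 h4
  have h5 := triv A B hA hB hAB
  set n := (2 * A * B * (A - B)).natAbs with hn
  have hn0 : 1 ≤ n := by
    rw [hn]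
    apply Int.natAbs_pos.2
    exact mul_ne_zero (mul_ne_zero (mul_ne_zero two_ne_zero hA) hB) (sub_ne_zero.mpr hAB)
  have hn1 : n ≤ 64 * N ^ 3 := by
    rw [hn, Int.natAbs_mul, Int.natAbs_mul, Int.natAbs_mul]
    have h6 : (A - B).natAbs ≤ 2 * N := by omega
    have : (2 : ℤ).natAbs = 2 := rfl
    rw [this]
    calc 2 * A.natAbs * B.natAbs * (A - B).natAbs ≤ 2 * N * N * (2 * N) := by gcongr
      _ = 4 * N ^ 3 := by ring
      _ ≤ _ := by omega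
  have h6 := h n hn0
  have h7 : ((n : ℝ)) ^ (1 / 6 : ℝ) ≤ 2 * Real.sqrt N := by
    have h8 : (n : ℝ) ≤ (2 * Real.sqrt N) ^ (6 : ℕ) := by
      have h9 : (2 * Real.sqrt N) ^ (6 : ℕ) = 64 * (N : ℝ) ^ 3 := by
        have h10 : Real.sqrt N ^ 2 = N := Real.sq_sqrt (Nat.cast_nonneg N)
        calc (2 * Real.sqrt N) ^ (6 : ℕ) = 64 * (Real.sqrt N ^ 2) ^ 3 := by ring
          _ = _ := by rw [h10]
      rw [h9]
      exact_mod_cast hn1
    calc ((n : ℝ)) ^ (1 / 6 : ℝ) ≤ ((2 * Real.sqrt N) ^ (6 : ℕ)) ^ (1 / 6 : ℝ) := by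
          apply Real.rpow_le_rpow (Nat.cast_nonneg _) h8 (by norm_num)
      _ = 2 * Real.sqrt N := by
          rw [← Real.rpow_natCast, ← Real.rpow_mul (by positivity)]
          norm_num
  have h9 : (4 : ℝ) ^ Module.finrank ℤ (EAB A B).toAffine.Point =
      ((2 ^ Module.finrank ℤ (EAB A B).toAffine.Point : ℕ) : ℝ) ^ 2 := by
    push_cast
    rw [← pow_mul, mul_comm, pow_mul]
    norm_num
  have h10 : ((2 ^ Module.finrank ℤ (EAB A B).toAffine.Point : ℕ) : ℝ) ≤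
      ((4 ^ (n.primeFactors.card + 2) : ℕ) : ℝ) := by exact_mod_cast h5
  calc (4 : ℝ) ^ Module.finrank ℤ (EAB A B).toAffine.Point
      = ((2 ^ Module.finrank ℤ (EAB A B).toAffine.Point : ℕ) : ℝ) ^ 2 := h9
    _ ≤ ((4 ^ (n.primeFactors.card + 2) : ℕ) : ℝ) ^ 2 := by gcongr
    _ = 256 * ((16 : ℕ) : ℝ) ^ n.primeFactors.card := by
        push_cast
        rw [pow_add, mul_pow, ← pow_mul, mul_comm n.primeFactors.card 2, pow_mul]
        norm_num
        ring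
    _ ≤ 256 * (C * (n : ℝ) ^ (1 / 6 : ℝ)) := by gcongr
    _ ≤ 256 * (C * (2 * Real.sqrt N)) := by gcongr
    _ = _ := by ring

theorem box2_of (h : AVGR2) (h2 : OMG) : BOX2 := by
  classical
  obtain ⟨C1, hC1, ht⟩ := trivBox2 h2
  have h' : ∀ e ∈ sg, ∃ C : ℝ, 0 ≤ C ∧ ∀ X : ℕ, 1 ≤ X →
    ∑ y ∈ Q (al e) (be e) X, (4 : ℝ) ^ Module.finrank ℤ (EAB (ps e y).1 (ps e y).2).toAffine.Point
      ≤ C * X ^ 4 := by
    intro e he
    exact h (al e) (be e) (al_ne he) (res_ne he) (by simp [al]; ring) (by simp [be])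
  choose! C hC hA using h'
  refine ⟨144 * (∑ e ∈ sg, C e) + 7 * C1, by
    have : 0 ≤ ∑ e ∈ sg, C e := sum_nonneg hC
    positivity, ?_⟩
  intro N hN
  set X := Nat.sqrt (3 * N) + 1 with hX
  have hX1 : 3 * N ≤ X ^ 2 := by
    have := Nat.lt_succ_sqrt (3 * N)
    rw [hX, pow_two]
    exact this.le
  have hX2 : X ^ 2 ≤ 12 * N := by
    have h1 := Nat.sqrt_le (3 * N)
    have h3 : 1 ≤ Nat.sqrt (3 * N) := by
      rw [Nat.le_sqrt]; omega
    rw [hX]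
    nlinarith
  have hXp : 1 ≤ X := by omega
  set f : ℤ × ℤ → ℝ := fun t => (4 : ℝ) ^ Module.finrank ℤ (EAB t.1 t.2).toAffine.Point with hf
  have hf0 : ∀ t, 0 ≤ f t := fun t => by rw [hf]; positivity
  show ∑ t ∈ Bx N, f t ≤ _
  rw [← sum_filter_add_sum_filter_not (Bx N) (fun t => t.2 ≠ 2 * t.1 ∧ Int.gcd t.1 t.2 ≤ X)]
  have hN1 : (1 : ℝ) ≤ N := by exact_mod_cast hN
  have p1 : ∑ t ∈ (Bx N).filter (fun t => t.2 ≠ 2 * t.1 ∧ Int.gcd t.1 t.2 ≤ X), f t ≤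
      144 * (∑ e ∈ sg, C e) * N ^ 2 := by
    refine (mainPart f hf0 N X hX1).trans ?_
    calc ∑ e ∈ sg, ∑ y ∈ Q (al e) (be e) X, f (ps e y) ≤ ∑ e ∈ sg, C e * X ^ 4 :=
          sum_le_sum (fun e he => hA e he X hXp)
      _ = (∑ e ∈ sg, C e) * X ^ 4 := by rw [sum_mul]
      _ ≤ (∑ e ∈ sg, C e) * (144 * N ^ 2) := by
          have h3 : (X : ℝ) ^ 4 ≤ 144 * N ^ 2 := by
            have h4 : X ^ 4 ≤ 144 * N ^ 2 := by
              calc X ^ 4 = (X ^ 2) ^ 2 := by ring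
                _ ≤ (12 * N) ^ 2 := Nat.pow_le_pow_left hX2 2
                _ = 144 * N ^ 2 := by ring
            exact_mod_cast h4
          have : 0 ≤ ∑ e ∈ sg, C e := sum_nonneg hC
          gcongr
      _ = _ := by ring
  have p2 : ∑ t ∈ (Bx N).filter (fun t => ¬ (t.2 ≠ 2 * t.1 ∧ Int.gcd t.1 t.2 ≤ X)), f t ≤
      7 * C1 * N ^ 2 := by
    have hs : (0 : ℝ) ≤ Real.sqrt N := Real.sqrt_nonneg _
    have hs1 : Real.sqrt N ^ 2 = N := Real.sq_sqrt (Nat.cast_nonneg N)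
    have hs2 : (1 : ℝ) ≤ Real.sqrt N := by
      rw [show (1 : ℝ) = Real.sqrt 1 by simp]
      exact Real.sqrt_le_sqrt hN1
    have h3 : ∑ t ∈ (Bx N).filter (fun t => ¬ (t.2 ≠ 2 * t.1 ∧ Int.gcd t.1 t.2 ≤ X)), f t ≤
        (((Bx N).filter (fun t => ¬ (t.2 ≠ 2 * t.1 ∧ Int.gcd t.1 t.2 ≤ X))).card : ℝ) *
          (C1 * Real.sqrt N) := by
      rw [← nsmul_eq_mul]
      apply sum_le_card_nsmul
      intro t ht'
      rw [mem_filter, mem_Bx] at ht'
      exact ht N hN t.1 t.2 ht'.1.2.2.1 ht'.1.2.2.2.1 ht'.1.2.2.2.2 ht'.1.1 ht'.1.2.1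
    have h4 : ((Bx N).filter (fun t => ¬ (t.2 ≠ 2 * t.1 ∧ Int.gcd t.1 t.2 ≤ X))).card ≤
        ((Bx N).filter (fun t => t.2 = 2 * t.1)).card +
          ((Bx N).filter (fun t => X < Int.gcd t.1 t.2)).card := by
      refine le_trans (card_le_card ?_) (card_union_le _ _)
      intro t ht'
      rw [mem_filter] at ht'
      rw [mem_union, mem_filter, mem_filter]
      by_cases h5 : t.2 = 2 * t.1
      · left; exact ⟨ht'.1, h5⟩
      · right; refine ⟨ht'.1, ?_⟩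
        by_contra h6
        exact ht'.2 ⟨h5, by omega⟩
    have h5 : (((Bx N).filter (fun t => ¬ (t.2 ≠ 2 * t.1 ∧ Int.gcd t.1 t.2 ≤ X))).card : ℝ) ≤
        3 * N + 4 * N ^ 2 / X := by
      have h6 := card_line N hN
      have h7 := card_gcd N X hXp
      have h8 : (((Bx N).filter (fun t => t.2 = 2 * t.1)).card : ℝ) ≤ 3 * N := by
        exact_mod_cast h6
      have h9 : (((Bx N).filter (fun t => ¬ (t.2 ≠ 2 * t.1 ∧ Int.gcd t.1 t.2 ≤ X))).card : ℝ) ≤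
          (((Bx N).filter (fun t => t.2 = 2 * t.1)).card : ℝ) +
          (((Bx N).filter (fun t => X < Int.gcd t.1 t.2)).card : ℝ) := by exact_mod_cast h4
      linarith
    have h6 : Real.sqrt N ≤ X := by
      rw [Real.sqrt_le_left (by positivity)]
      have : N ≤ X ^ 2 := by omega
      exact_mod_cast this
    have h7 : 4 * (N : ℝ) ^ 2 / X * Real.sqrt N ≤ 4 * N ^ 2 := by
      have hXp' : (0 : ℝ) < X := by exact_mod_cast hXp
      rw [div_mul_eq_mul_div, div_le_iff₀ hXp']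
      gcongr
    have h8 : Real.sqrt N ≤ N := by nlinarith
    calc _ ≤ _ := h3
      _ ≤ (3 * N + 4 * N ^ 2 / X) * (C1 * Real.sqrt N) := by gcongr
      _ = C1 * (3 * N * Real.sqrt N + 4 * N ^ 2 / X * Real.sqrt N) := by ring
      _ ≤ C1 * (3 * N * N + 4 * N ^ 2) := by gcongr
      _ = _ := by ring
  calc _ ≤ _ := add_le_add p1 p2
    _ = _ := by ring

end Pool.Agent.K6.H84.TQ
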